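import Pool.Agent.Helper95.Lin.GoalsH

/-! Packet PHELL: the operator dominates the Levi form. -/

open Complex Metric Set Filter Topology MeasureTheory
open scoped ContDiff ComplexConjugate ComplexOrder MatrixOrder Matrix

namespace Pool.Agent.Helper89.Lin

open Pool.Agent.Helper95.Lin

section Mat

variable {n : ℕ}

theorem exists_root {L : Matrix (Fin n) (Fin n) ℂ} (h : L.PosSemidef) :
    ∃ B : Matrix (Fin n) (Fin n) ℂ, L = Bᴴ * B := by
  obtain ⟨B, rfl⟩ := CStarAlgebra.nonneg_iff_eq_star_mul_self.mp h.nonneg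
  exact ⟨B, rfl⟩

theorem re_trace_mul_nonneg {A L : Matrix (Fin n) (Fin n) ℂ} (hA : A.PosSemidef)
    (hL : L.PosSemidef) : 0 ≤ (A * L).trace.re := by
  obtain ⟨B, rfl⟩ := exists_root hL
  have e : (A * (Bᴴ * B)).trace = (B * A * Bᴴ).trace := by
    rw [← Matrix.mul_assoc, Matrix.trace_mul_comm, ← Matrix.mul_assoc]
  rw [e]
  exact (Complex.nonneg_iff.1 (hA.mul_mul_conjTranspose_same B).trace_nonneg).1

theorem re_trace_nonneg {L : Matrix (Fin n) (Fin n) ℂ} (hL : L.PosSemidef) : 0 ≤ L.trace.re :=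
  (Complex.nonneg_iff.1 hL.trace_nonneg).1

theorem quad_le_trace {L : Matrix (Fin n) (Fin n) ℂ} (hL : L.PosSemidef) (x : Fin n → ℂ)
    (hx : ‖x‖ ≤ 1) : (star x ⬝ᵥ (L *ᵥ x)).re ≤ n * L.trace.re := by
  obtain ⟨B, rfl⟩ := exists_root hL
  have e1 : (star x ⬝ᵥ ((Bᴴ * B) *ᵥ x)).re = ∑ i, ‖(B *ᵥ x) i‖ ^ 2 := by
    rw [← Matrix.mulVec_mulVec, Matrix.dotProduct_mulVec, Matrix.vecMul_conjTranspose, star_star]
    unfold dotProduct
    rw [Complex.re_sum]
    refine Finset.sum_congr rfl fun i _ => ?_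
    rw [Pi.star_apply, mul_comm]
    change ((B *ᵥ x) i * conj ((B *ᵥ x) i)).re = _
    rw [Complex.mul_conj, Complex.ofReal_re, Complex.normSq_eq_norm_sq]
  have e2 : (Bᴴ * B).trace.re = ∑ i, ∑ j, ‖B i j‖ ^ 2 := by
    unfold Matrix.trace
    rw [Complex.re_sum, Finset.sum_comm]
    refine Finset.sum_congr rfl fun j _ => ?_
    rw [Matrix.diag_apply, Matrix.mul_apply, Complex.re_sum]
    refine Finset.sum_congr rfl fun i _ => ?_
    rw [Matrix.conjTranspose_apply, mul_comm]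
    change (B i j * conj (B i j)).re = _
    rw [Complex.mul_conj, Complex.ofReal_re, Complex.normSq_eq_norm_sq]
  rw [e1, e2, Finset.mul_sum]
  refine Finset.sum_le_sum fun i _ => ?_
  have h1 : ‖(B *ᵥ x) i‖ ≤ ∑ j, ‖B i j‖ := by
    unfold Matrix.mulVec dotProduct
    refine (norm_sum_le _ _).trans (Finset.sum_le_sum fun j _ => ?_)
    rw [norm_mul]
    exact mul_le_of_le_one_right (norm_nonneg _) ((norm_le_pi_norm x j).trans hx)
  have h2 : (∑ j, ‖B i j‖) ^ 2 ≤ (n : ℝ) * ∑ j, ‖B i j‖ ^ 2 := by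
    have := sq_sum_le_card_mul_sum_sq (s := (Finset.univ : Finset (Fin n)))
      (f := fun j => ‖B i j‖)
    rw [Finset.card_univ, Fintype.card_fin] at this
    exact this
  exact (pow_le_pow_left₀ (norm_nonneg _) h1 2).trans h2

theorem exists_lower {X : Type*} [TopologicalSpace X] {K : Set X} (hK : IsCompact K)
    (A : X → Matrix (Fin n) (Fin n) ℂ) (hA : ∀ i j, ContinuousOn (fun x => A x i j) K)
    (hpos : ∀ x ∈ K, (A x).PosDef) : ∃ c : ℝ, 0 < c ∧ ∀ x ∈ K,
      (A x - (c : ℂ) • (1 : Matrix (Fin n) (Fin n) ℂ)).PosSemidef := by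
  set q : X × (Fin n → ℂ) → ℝ := fun p => (star p.2 ⬝ᵥ (A p.1 *ᵥ p.2)).re with hq
  have hqc : ContinuousOn q (K ×ˢ sphere (0 : Fin n → ℂ) 1) := by
    rw [hq]
    refine Complex.continuous_re.comp_continuousOn ?_
    unfold Matrix.mulVec dotProduct
    refine continuousOn_finsetSum _ fun i _ => ?_
    refine ContinuousOn.mul ?_ ?_
    · have : Continuous fun p : X × (Fin n → ℂ) => (star p.2) i := by
        have : Continuous fun p : X × (Fin n → ℂ) => conj (p.2 i) := by fun_prop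
        exact this
      exact this.continuousOn
    · refine continuousOn_finsetSum _ fun j _ => ?_
      refine ContinuousOn.mul ?_ ?_
      · exact (hA i j).comp continuousOn_fst fun p hp => hp.1
      · fun_prop
  have hpos' : ∀ x ∈ K, ∀ v : Fin n → ℂ, v ≠ 0 → 0 < q (x, v) := by
    intro x hx v hv
    exact (Complex.pos_iff.1 ((hpos x hx).dotProduct_mulVec_pos hv)).1
  have hhom : ∀ (x : X) (t : ℝ) (v : Fin n → ℂ), q (x, (t : ℂ) • v) = t ^ 2 * q (x, v) := by
    intro x t v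
    simp only [hq, Matrix.mulVec_smul, star_smul, smul_dotProduct, dotProduct_smul, smul_eq_mul]
    have : star (t : ℂ) = (t : ℂ) := Complex.conj_ofReal t
    rw [this, ← mul_assoc, ← Complex.ofReal_mul, Complex.re_ofReal_mul]
    ring
  have hmain : ∃ c0 : ℝ, 0 < c0 ∧ ∀ x ∈ K, ∀ v : Fin n → ℂ, c0 * ‖v‖ ^ 2 ≤ q (x, v) := by
    have hnorm : ∀ v : Fin n → ℂ, v ≠ 0 → ((‖v‖⁻¹ : ℝ) : ℂ) • v ∈ sphere (0 : Fin n → ℂ) 1 := by
      intro v hv
      rw [mem_sphere_zero_iff_norm, norm_smul, Complex.norm_real, norm_inv, norm_norm,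
        inv_mul_cancel₀ (norm_ne_zero_iff.2 hv)]
    rcases (K ×ˢ sphere (0 : Fin n → ℂ) 1).eq_empty_or_nonempty with he | hne
    · refine ⟨1, one_pos, fun x hx v => ?_⟩
      by_cases hv : v = 0
      · subst hv
        simp [hq]
      · exfalso
        have : (x, ((‖v‖⁻¹ : ℝ) : ℂ) • v) ∈ K ×ˢ sphere (0 : Fin n → ℂ) 1 := ⟨hx, hnorm v hv⟩
        rw [he] at this
        exact this
    · obtain ⟨p, hp, hmin⟩ := (hK.prod (isCompact_sphere 0 1)).exists_isMinOn hne hqc
      have hp0 : p.2 ≠ 0 := by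
        intro h0
        have := hp.2
        rw [h0, mem_sphere_zero_iff_norm, norm_zero] at this
        exact zero_ne_one this
      refine ⟨q p, hpos' p.1 hp.1 p.2 hp0, fun x hx v => ?_⟩
      by_cases hv : v = 0
      · subst hv
        simp [hq]
      · have h1 := hmin (show (x, ((‖v‖⁻¹ : ℝ) : ℂ) • v) ∈ K ×ˢ sphere (0 : Fin n → ℂ) 1 from
          ⟨hx, hnorm v hv⟩)
        have h2 : q p ≤ q (x, ((‖v‖⁻¹ : ℝ) : ℂ) • v) := h1
        rw [hhom] at h2
        have hvn : 0 < ‖v‖ := norm_pos_iff.2 hv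
        calc q p * ‖v‖ ^ 2 ≤ ((‖v‖⁻¹) ^ 2 * q (x, v)) * ‖v‖ ^ 2 :=
              mul_le_mul_of_nonneg_right h2 (by positivity)
          _ = q (x, v) := by
              field_simp
  obtain ⟨c0, hc0, hmain⟩ := hmain
  refine ⟨c0 / (n + 1), by positivity, fun x hx => ?_⟩
  have hherm : (A x - ((c0 / (n + 1) : ℝ) : ℂ) • (1 : Matrix (Fin n) (Fin n) ℂ)).IsHermitian := by
    refine (hpos x hx).isHermitian.sub ?_
    unfold Matrix.IsHermitian
    rw [Matrix.conjTranspose_smul, Matrix.conjTranspose_one]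
    congr 1
    exact Complex.conj_ofReal _
  refine Matrix.PosSemidef.of_dotProduct_mulVec_nonneg hherm fun v => ?_
  have e1 : star v ⬝ᵥ ((A x - ((c0 / (n + 1) : ℝ) : ℂ) • (1 : Matrix (Fin n) (Fin n) ℂ)) *ᵥ v) =
      star v ⬝ᵥ (A x *ᵥ v) - ((c0 / (n + 1) * ∑ j, ‖v j‖ ^ 2 : ℝ) : ℂ) := by
    rw [Matrix.sub_mulVec, dotProduct_sub, Matrix.smul_mulVec, Matrix.one_mulVec,
      dotProduct_smul, smul_eq_mul, Complex.ofReal_mul]
    congr 2
    rw [Complex.ofReal_sum]
    unfold dotProduct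
    refine Finset.sum_congr rfl fun j _ => ?_
    rw [Pi.star_apply, mul_comm]
    change v j * conj (v j) = _
    rw [Complex.mul_conj, Complex.normSq_eq_norm_sq]
  rw [e1]
  have h0 := (hpos x hx).posSemidef.dotProduct_mulVec_nonneg v
  rw [Complex.nonneg_iff] at h0 ⊢
  constructor
  · rw [Complex.sub_re, Complex.ofReal_re, sub_nonneg]
    have h1 : ∑ j, ‖v j‖ ^ 2 ≤ (n : ℝ) * ‖v‖ ^ 2 := by
      calc ∑ j, ‖v j‖ ^ 2 ≤ ∑ _j : Fin n, ‖v‖ ^ 2 := Finset.sum_le_sum fun j _ =>
            pow_le_pow_left₀ (norm_nonneg _) (norm_le_pi_norm v j) 2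
        _ = (n : ℝ) * ‖v‖ ^ 2 := by simp
    calc c0 / (n + 1) * ∑ j, ‖v j‖ ^ 2 ≤ c0 / (n + 1) * ((n + 1) * ‖v‖ ^ 2) := by
          refine mul_le_mul_of_nonneg_left (h1.trans ?_) (by positivity)
          nlinarith [sq_nonneg ‖v‖]
      _ = c0 * ‖v‖ ^ 2 := by field_simp
      _ ≤ _ := hmain x hx v
  · rw [Complex.sub_im, Complex.ofReal_im, sub_zero]
    exact h0.2

end Mat

section Levi

variable {n : ℕ}

theorem rb_false (j : Fin n) : rb (j, false) = Pi.single j 1 := by simp [rb]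

theorem rb_true (j : Fin n) : rb (j, true) = Pi.single j I := by simp [rb]

/-- The Levi matrix of a real bilinear form. -/
noncomputable def lm (Q : Cn n →L[ℝ] Cn n →L[ℝ] ℝ) : Matrix (Fin n) (Fin n) ℂ :=
  Matrix.of fun j k => ((Q (rb (j, false)) (rb (k, false)) + Q (rb (j, true)) (rb (k, true)) : ℝ) : ℂ) +
    I * ((Q (rb (j, false)) (rb (k, true)) - Q (rb (j, true)) (rb (k, false)) : ℝ) : ℂ)

theorem lm_herm {Q : Cn n →L[ℝ] Cn n →L[ℝ] ℝ} (hQ : ∀ u v, Q u v = Q v u) :
    (lm Q).IsHermitian := by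
  ext j k
  rw [Matrix.conjTranspose_apply]
  change conj (lm Q k j) = lm Q j k
  unfold lm
  simp only [Matrix.of_apply, map_add, map_mul, Complex.conj_ofReal, Complex.conj_I]
  rw [hQ (rb (k, false)) (rb (j, false)), hQ (rb (k, true)) (rb (j, true)),
    hQ (rb (k, false)) (rb (j, true)), hQ (rb (k, true)) (rb (j, false))]
  push_cast
  ring

theorem vec_expand (e : Cn n) : e = ∑ j, ((e j).re • rb (j, false) + (e j).im • rb (j, true)) := by
  have h : ∀ j, ((e j).re • rb (j, false) + (e j).im • rb (j, true) : Cn n) =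
      Pi.single j (e j) := by
    intro j
    rw [rb_false, rb_true]
    ext i
    by_cases hi : i = j
    · subst hi
      simp only [Pi.add_apply, Pi.smul_apply, Pi.single_eq_same, Complex.real_smul, mul_one]
      exact Complex.re_add_im (e i)
    · simp [Pi.single_eq_of_ne hi]
  simp only [h]
  exact (Finset.univ_sum_single e).symm

theorem Q_expand (Q : Cn n →L[ℝ] Cn n →L[ℝ] ℝ) (e f : Cn n) : Q e f = ∑ j, ∑ k,
    ((e j).re * (f k).re * Q (rb (j, false)) (rb (k, false)) +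
      (e j).re * (f k).im * Q (rb (j, false)) (rb (k, true)) +
      (e j).im * (f k).re * Q (rb (j, true)) (rb (k, false)) +
      (e j).im * (f k).im * Q (rb (j, true)) (rb (k, true))) := by
  conv_lhs => rw [vec_expand e, vec_expand f]
  simp only [map_sum, _root_.sum_apply, map_add, map_smul,
    _root_.add_apply, _root_.smul_apply, smul_eq_mul]
  rw [Finset.sum_comm (f := fun j k => ((e j).re * (f k).re * Q (rb (j, false)) (rb (k, false)) +
      (e j).re * (f k).im * Q (rb (j, false)) (rb (k, true)) +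
      (e j).im * (f k).re * Q (rb (j, true)) (rb (k, false)) +
      (e j).im * (f k).im * Q (rb (j, true)) (rb (k, true))))]
  refine Finset.sum_congr rfl fun j _ => ?_
  rw [Finset.mul_sum, Finset.mul_sum, ← Finset.sum_add_distrib]
  refine Finset.sum_congr rfl fun k _ => ?_
  ring

theorem lev_eq (Q : Cn n →L[ℝ] Cn n →L[ℝ] ℝ) (e : Cn n) :
    Q e e + Q (I • e) (I • e) = (star (star e) ⬝ᵥ (lm Q *ᵥ (star e))).re := by
  rw [Q_expand Q e e, Q_expand Q (I • e) (I • e), ← Finset.sum_add_distrib, star_star]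
  unfold Matrix.mulVec dotProduct
  rw [Complex.re_sum]
  refine Finset.sum_congr rfl fun j _ => ?_
  rw [← Finset.sum_add_distrib, Finset.mul_sum, Complex.re_sum]
  refine Finset.sum_congr rfl fun k _ => ?_
  have hs : (star e) k = conj (e k) := rfl
  rw [hs]
  simp [lm]
  ring

theorem trace_eq (A : Matrix (Fin n) (Fin n) ℂ) (Q : Cn n →L[ℝ] Cn n →L[ℝ] ℝ) :
    ∑ a : Fin n × Bool, ∑ b : Fin n × Bool,
      (A b.1 a.1 * conj (if a.2 then I else 1) * (if b.2 then I else 1)).re * Q (rb a) (rb b) =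
    (A * lm Q).trace.re := by
  unfold Matrix.trace
  simp only [Matrix.diag_apply, Matrix.mul_apply, Complex.re_sum, Fintype.sum_prod_type,
    Fintype.sum_bool]
  rw [Finset.sum_comm (f := fun k j => (A k j * lm Q j k).re)]
  refine Finset.sum_congr rfl fun j _ => ?_
  rw [← Finset.sum_add_distrib]
  refine Finset.sum_congr rfl fun k _ => ?_
  simp [lm]
  ring

end Levi

theorem phell : S_PHELL := by
  intro n M H hM hpos hcont K hKM hK
  have hcont' : ∀ i j, ContinuousOn (fun x => (H x).adjugate i j) K := by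
    intro i j
    have h1 : ContinuousOn H K :=
      continuousOn_pi.2 fun i => continuousOn_pi.2 fun j => (hcont i j).mono hKM
    have h2 : ContinuousOn (fun x => (H x).adjugate) K :=
      (continuous_id.matrix_adjugate : Continuous fun B : Matrix (Fin n) (Fin n) ℂ =>
        B.adjugate).comp_continuousOn h1
    exact (continuousOn_pi.1 ((continuousOn_pi.1 h2) i)) j
  have hpos' : ∀ x ∈ K, ((H x).adjugate).PosDef := by
    intro x hx
    have h1 := hpos x (hKM hx)
    have h2 : (H x).adjugate = (H x).det • (H x)⁻¹ := by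
      rw [Matrix.inv_def, smul_smul, Ring.mul_inverse_cancel _ h1.det_pos.ne'.isUnit, one_smul]
    rw [h2]
    exact h1.inv.smul h1.det_pos
  obtain ⟨c, hc, hlow⟩ := exists_lower hK (fun x => (H x).adjugate) hcont' hpos'
  refine ⟨n / c, by positivity, fun φ hφ x hx hlev => ?_⟩
  have hxM : M ∈ 𝓝 x := hM.mem_nhds (hKM hx)
  have hφx : ContDiffAt ℝ ∞ φ x := hφ.contDiffAt hxM
  set Q : Cn n →L[ℝ] Cn n →L[ℝ] ℝ := fderiv ℝ (fderiv ℝ φ) x with hQ
  have hsymm : ∀ u v, Q u v = Q v u := by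
    intro u v
    have h2 : (2 : WithTop ℕ∞) ≤ ∞ := WithTop.coe_le_coe.2 (le_top : (2 : ℕ∞) ≤ ⊤)
    exact hφx.isSymmSndFDerivAt (by simpa using h2) u v
  have hdiff : DifferentiableAt ℝ (fderiv ℝ φ) x := by
    have h2 : (1 : WithTop ℕ∞) + 1 ≤ ∞ :=
      WithTop.coe_le_coe.2 (le_top : (1 : ℕ∞) + 1 ≤ ⊤)
    have h1 : ContDiffAt ℝ 1 (fderiv ℝ φ) x := hφx.fderiv_right (m := 1) h2
    exact h1.differentiableAt one_ne_zero
  have hhess : ∀ u v, hess φ x u v = Q u v := by
    intro u v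
    unfold hess
    rw [fderiv_clm_apply hdiff (differentiableAt_const v)]
    simp [hQ]
  have hlev' : ∀ e, lev φ x e = (star (star e) ⬝ᵥ (lm Q *ᵥ (star e))).re := by
    intro e
    unfold lev
    rw [hhess, hhess, lev_eq]
  have hLop : Lop (PH H) φ x = ((H x).adjugate * lm Q).trace.re := by
    rw [← trace_eq]
    unfold Lop PH
    refine Finset.sum_congr rfl fun a _ => Finset.sum_congr rfl fun b _ => ?_
    congr 1
    exact hhess (rb a) (rb b)
  have hpsd : (lm Q).PosSemidef := by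
    refine Matrix.PosSemidef.of_dotProduct_mulVec_nonneg (lm_herm hsymm) fun v => ?_
    rw [Complex.nonneg_iff]
    constructor
    · have h1 := hlev (star v)
      rw [hlev'] at h1
      simp only [star_star] at h1
      exact h1
    · exact ((lm_herm hsymm).im_star_dotProduct_mulVec_self v).symm
  have h1 := re_trace_mul_nonneg (hlow x hx) hpsd
  rw [Matrix.sub_mul, Matrix.trace_sub, Complex.sub_re, sub_nonneg, Matrix.smul_mul,
    Matrix.one_mul, Matrix.trace_smul, smul_eq_mul, Complex.re_ofReal_mul, ← hLop] at h1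
  have h2 := re_trace_nonneg hpsd
  refine ⟨(mul_nonneg hc.le h2).trans h1, fun e he => ?_⟩
  have h3 := quad_le_trace hpsd (star e) (by rw [norm_star]; exact he)
  rw [← hlev'] at h3
  calc lev φ x e ≤ n * (lm Q).trace.re := h3
    _ = n / c * (c * (lm Q).trace.re) := by field_simp
    _ ≤ n / c * Lop (PH H) φ x := mul_le_mul_of_nonneg_left h1 (by positivity)

end Pool.Agent.Helper89.Lin
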