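import Pool.Agent.Helper95.Lin.GoalsI
import Pool.Agent.Helper10.Abund.OpenSub

/-! Packet T0: the affine form of an action on `D × ℂ`. -/

open Complex Metric Set Filter Topology MeasureTheory
open scoped ContDiff ComplexConjugate ComplexOrder Manifold

namespace Pool.Agent.Helper89.Lin

open Pool.Agent.Helper95.Lin Pool.Agent.Helper16.Abund Pool.Agent.Helper92.Orb
open Pool.Agent.Helper10.Abund (jac_open_comp mdifferentiable_val)

section Iota

variable {b : ℕ}

/-- The point `(z, w)`. -/
def io (z : Cn b) (w : ℂ) : Cn (b + 1) := Fin.append z fun _ : Fin 1 => w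

/-- The last coordinate. -/
def la (v : Cn (b + 1)) : ℂ := v (Fin.natAdd b 0)

theorem base_io (z : Cn b) (w : ℂ) : base (io z w) = z := by
  funext i
  simp [base, io]

theorem la_io (z : Cn b) (w : ℂ) : la (io z w) = w := by
  unfold la io
  rw [Fin.append_right]

theorem io_base_la (v : Cn (b + 1)) : io (base v) (la v) = v := by
  funext i
  refine Fin.addCases (fun i => ?_) (fun i => ?_) i
  · unfold io
    rw [Fin.append_left]; rfl
  · unfold io la
    rw [Fin.append_right]
    congr 2
    exact (Subsingleton.elim _ _)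

theorem differentiable_io : Differentiable ℂ (fun p : Cn b × ℂ => io p.1 p.2) := by
  rw [differentiable_pi]
  intro i
  refine Fin.addCases (fun i => ?_) (fun i => ?_) i
  · unfold io
    simp only [Fin.append_left]
    fun_prop
  · unfold io
    simp only [Fin.append_right]
    fun_prop

theorem continuous_io : Continuous (fun p : Cn b × ℂ => io p.1 p.2) :=
  differentiable_io.continuous

theorem differentiable_base' : Differentiable ℂ (base : Cn (b + 1) → Cn b) := by
  rw [differentiable_pi]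
  intro i
  unfold base
  fun_prop

theorem differentiable_la : Differentiable ℂ (la : Cn (b + 1) → ℂ) := by
  unfold la
  fun_prop

end Iota

section Core

variable {b : ℕ} {D : Set (Cn b)} {Γ : Type} [Group Γ] {F : Γ → Cn (b + 1) → Cn (b + 1)}

theorem io_mem {z : Cn b} (hz : z ∈ D) (w : ℂ) : io z w ∈ tubeS D := by
  change base (io z w) ∈ D
  rw [base_io]
  exact hz

/-- The base map. -/
noncomputable def gg (F : Γ → Cn (b + 1) → Cn (b + 1)) (γ : Γ) (z : Cn b) : Cn b :=
  base (F γ (io z 0))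

/-- The translation part. -/
noncomputable def bb (F : Γ → Cn (b + 1) → Cn (b + 1)) (γ : Γ) (z : Cn b) : ℂ :=
  la (F γ (io z 0))

/-- The linear part. -/
noncomputable def aa (F : Γ → Cn (b + 1) → Cn (b + 1)) (γ : Γ) (z : Cn b) : ℂ :=
  la (F γ (io z 1)) - la (F γ (io z 0))

theorem base_const (hDb : Bornology.IsBounded D) (h : GAct (tubeS D) F) (γ : Γ) {z : Cn b}
    (hz : z ∈ D) (w : ℂ) : base (F γ (io z w)) = gg F γ z := by
  have h1 : Differentiable ℂ (fun w : ℂ => base (F γ (io z w))) := by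
    have h2 : DifferentiableOn ℂ (fun w : ℂ => F γ (io z w)) univ := by
      apply (h.holo γ).comp
      · exact (differentiable_io.comp ((differentiable_const z).prodMk differentiable_id)).differentiableOn
      · intro w _
        exact io_mem hz w
    exact differentiable_base'.comp (differentiableOn_univ.1 h2)
  refine h1.apply_eq_apply_of_bounded (hDb.subset ?_) w 0
  rintro _ ⟨w, rfl⟩
  exact h.maps γ _ (io_mem hz w)

theorem F_eq (hDb : Bornology.IsBounded D) (h : GAct (tubeS D) F) (γ : Γ) {z : Cn b}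
    (hz : z ∈ D) (w : ℂ) : F γ (io z w) = io (gg F γ z) (la (F γ (io z w))) := by
  rw [← base_const hDb h γ hz w, io_base_la]

theorem gg_mem (h : GAct (tubeS D) F) (γ : Γ) {z : Cn b} (hz : z ∈ D) : gg F γ z ∈ D :=
  h.maps γ _ (io_mem hz 0)

theorem gg_inv (hDb : Bornology.IsBounded D) (h : GAct (tubeS D) F) (γ : Γ) {z : Cn b}
    (hz : z ∈ D) : gg F γ⁻¹ (gg F γ z) = z := by
  have h1 : F γ⁻¹ (F γ (io z 0)) = io z 0 := by
    rw [← h.mul _ _ _ (io_mem hz 0), inv_mul_cancel, h.one _ (io_mem hz 0)]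
  rw [F_eq hDb h γ hz 0] at h1
  have h2 := base_const hDb h γ⁻¹ (gg_mem h γ hz) (la (F γ (io z 0)))
  rw [h1, base_io] at h2
  exact h2.symm

theorem entire_la (h : GAct (tubeS D) F) (γ : Γ) {z : Cn b} (hz : z ∈ D) :
    Differentiable ℂ (fun w : ℂ => la (F γ (io z w))) := by
  have h2 : DifferentiableOn ℂ (fun w : ℂ => F γ (io z w)) univ := by
    apply (h.holo γ).comp
    · exact (differentiable_io.comp ((differentiable_const z).prodMk differentiable_id)).differentiableOn
    · intro w _
      exact io_mem hz w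
  exact differentiable_la.comp (differentiableOn_univ.1 h2)

theorem la_inv (hDb : Bornology.IsBounded D) (h : GAct (tubeS D) F) (γ : Γ) {z : Cn b}
    (hz : z ∈ D) (w : ℂ) : la (F γ⁻¹ (io (gg F γ z) (la (F γ (io z w))))) = w := by
  rw [← F_eq hDb h γ hz w, ← h.mul _ _ _ (io_mem hz w), inv_mul_cancel,
    h.one _ (io_mem hz w), la_io]

theorem la_affine (haff : S_AFF) (hDb : Bornology.IsBounded D) (h : GAct (tubeS D) F) (γ : Γ)
    {z : Cn b} (hz : z ∈ D) : aa F γ z ≠ 0 ∧
      ∀ w, la (F γ (io z w)) = aa F γ z * w + bb F γ z := by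
  obtain ⟨a, β, ha, hw⟩ := haff (fun w => la (F γ (io z w)))
    (fun w => la (F γ⁻¹ (io (gg F γ z) w))) (entire_la h γ hz)
    (entire_la h γ⁻¹ (gg_mem h γ hz)) (fun w => la_inv hDb h γ hz w) (by
      intro w
      have h1 := la_inv hDb h γ⁻¹ (gg_mem h γ hz) w
      rw [inv_inv, gg_inv hDb h γ hz] at h1
      exact h1)
  have h0 := hw 0
  have h1 := hw 1
  simp only [mul_zero, zero_add, mul_one] at h0 h1
  have e1 : aa F γ z = a := by
    unfold aa
    rw [h0, h1]
    ring
  have e2 : bb F γ z = β := h0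
  rw [e1, e2]
  exact ⟨ha, hw⟩

theorem F_form (haff : S_AFF) (hDb : Bornology.IsBounded D) (h : GAct (tubeS D) F) (γ : Γ)
    {z : Cn b} (hz : z ∈ D) (w : ℂ) :
    F γ (io z w) = io (gg F γ z) (aa F γ z * w + bb F γ z) := by
  rw [F_eq hDb h γ hz w, (la_affine haff hDb h γ hz).2 w]

theorem F_Tt (haff : S_AFF) (hDb : Bornology.IsBounded D) (h : GAct (tubeS D) F) (γ : Γ)
    {v : Cn (b + 1)} (hv : v ∈ tubeS D) : F γ v = Tt (gg F) (aa F) (bb F) γ v := by
  have h1 := F_form haff hDb h γ (z := base v) hv (la v)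
  rw [io_base_la] at h1
  exact h1

theorem holo_io (h : GAct (tubeS D) F) (γ : Γ) (w : ℂ) :
    DifferentiableOn ℂ (fun z : Cn b => F γ (io z w)) D := by
  apply (h.holo γ).comp
  · exact (differentiable_io.comp (differentiable_id.prodMk (differentiable_const w))).differentiableOn
  · intro z hz
    exact io_mem hz w

theorem gAct_gg (hD : IsOpen D) (hDb : Bornology.IsBounded D) (h : GAct (tubeS D) F) :
    GAct D (gg F) where
  isOpen := hD
  holo γ := differentiable_base'.comp_differentiableOn (holo_io h γ 0)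
  maps γ z hz := gg_mem h γ hz
  one z hz := by
    unfold gg
    rw [h.one _ (io_mem hz 0), base_io]
  mul γ γ' z hz := by
    have h1 : gg F (γ * γ') z = base (F γ (F γ' (io z 0))) := by
      unfold gg
      rw [h.mul _ _ _ (io_mem hz 0)]
    rw [h1, F_eq hDb h γ' hz 0, base_const hDb h γ (gg_mem h γ' hz)]

theorem b_mul' (haff : S_AFF) (hDb : Bornology.IsBounded D) (h : GAct (tubeS D) F) (γ γ' : Γ)
    {z : Cn b} (hz : z ∈ D) (w : ℂ) : la (F (γ * γ') (io z w)) =
      aa F γ (gg F γ' z) * (aa F γ' z * w + bb F γ' z) + bb F γ (gg F γ' z) := by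
  rw [h.mul _ _ _ (io_mem hz w), F_form haff hDb h γ' hz w,
    F_form haff hDb h γ (gg_mem h γ' hz), la_io]

end Core

section Top

variable {b : ℕ} {D : Set (Cn b)} (hD : IsOpen D)

/-- The point of `D × ℂ` with given coordinates. -/
def pt (v : Cn (b + 1)) (hv : v ∈ tubeS D) : TorTube hD 1 := (⟨v, hv⟩ : tube D hD 1)

theorem tval_pt (v : Cn (b + 1)) (hv : v ∈ tubeS D) : tval (pt hD v hv) = v := rfl

theorem tval_mem (y : TorTube hD 1) : tval y ∈ tubeS D := (y : tube D hD 1).2

theorem pt_tval (y : TorTube hD 1) : pt hD (tval y) (tval_mem hD y) = y := rfl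

theorem continuous_tval : Continuous (tval : TorTube hD 1 → Cn (b + 1)) :=
  (continuous_subtype_val : Continuous (Subtype.val : tube D hD 1 → Cn (b + 1)))

theorem inducing_tval : Topology.IsInducing (tval : TorTube hD 1 → Cn (b + 1)) :=
  (Topology.IsInducing.subtypeVal : Topology.IsInducing
    (Subtype.val : tube D hD 1 → Cn (b + 1)))

theorem tval_injective : Function.Injective (tval : TorTube hD 1 → Cn (b + 1)) :=
  (Subtype.val_injective : Function.Injective (Subtype.val : tube D hD 1 → Cn (b + 1)))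

theorem compact_pre {S : Set (Cn (b + 1))} (hS : IsCompact S) (hST : S ⊆ tubeS D) :
    IsCompact ((tval : TorTube hD 1 → Cn (b + 1)) ⁻¹' S) := by
  rw [(inducing_tval hD).isCompact_preimage_iff]
  · exact hS
  · intro v hv
    exact ⟨pt hD v (hST hv), tval_pt hD v (hST hv)⟩

variable {Γ : Type} [Group Γ] [MulAction Γ (TorTube hD 1)]

open Classical in
/-- The action in coordinates. -/
noncomputable def FF (γ : Γ) (v : Cn (b + 1)) : Cn (b + 1) :=
  if h : v ∈ tubeS D then tval (γ • pt hD v h) else 0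

theorem FF_of (γ : Γ) {v : Cn (b + 1)} (h : v ∈ tubeS D) : FF hD γ v = tval (γ • pt hD v h) :=
  dif_pos h

theorem FF_tval (γ : Γ) (y : TorTube hD 1) : FF hD γ (tval y) = tval (γ • y) := by
  rw [FF_of hD γ (tval_mem hD y), pt_tval]

/-- The identity. -/
def toT (y : tube D hD 1) : TorTube hD 1 := y

theorem gAct_FF (hΓ : OrbAction (b + 1) Γ (TorTube hD 1)) :
    GAct (tubeS D) (FF hD : Γ → Cn (b + 1) → Cn (b + 1)) where
  isOpen := (tube D hD 1).isOpen
  holo γ := by
    have h1 : MDifferentiable 𝓘(ℂ, Fin (b + 1) → ℂ) 𝓘(ℂ, Fin (b + 1) → ℂ)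
        (fun y : tube D hD 1 => tval (γ • toT hD y)) :=
      (mdifferentiable_val (tube D hD 1)).comp (hΓ.holo γ)
    have h2 := (jac_open_comp (tube D hD 1) h1 (ψ := FF hD γ) (fun y => FF_tval hD γ y)).1
    exact mdifferentiableOn_iff_differentiableOn.1 h2
  maps γ v hv := by
    rw [FF_of hD γ hv]
    exact tval_mem hD _
  one v hv := by
    rw [FF_of hD 1 hv, one_smul, tval_pt]
  mul γ γ' v hv := by
    rw [FF_of hD _ hv, FF_of hD γ' hv, FF_tval, mul_smul]

end Top

theorem t0 : S_AFF → S_T0 := by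
  intro haff b D hD hDc hDb Γ _ _ hΓ hprop
  have hF := gAct_FF hD hΓ
  set F : Γ → Cn (b + 1) → Cn (b + 1) := FF hD with hFdef
  refine ⟨gg F, aa F, bb F, ?_, ?_⟩
  swap
  · intro γ y
    rw [← F_Tt haff hDb hF γ (tval_mem hD y), hFdef, FF_tval]
  obtain ⟨K, hK, hKc⟩ := hΓ.cocompact
  have hK1 : IsCompact (tval '' K) := hK.image (continuous_tval hD)
  have hK2 : IsCompact (base '' (tval '' K) : Set (Cn b)) :=
    hK1.image differentiable_base'.continuous
  have hK3 : IsCompact (la '' (tval '' K)) := hK1.image differentiable_la.continuous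
  have hKD : (base '' (tval '' K) : Set (Cn b)) ⊆ D := by
    rintro _ ⟨_, ⟨y, -, rfl⟩, rfl⟩
    exact tval_mem hD y
  obtain ⟨R, hR⟩ := hK3.isBounded.exists_norm_le
  have hcoc : ∀ z ∈ D, ∀ w : ℂ, ∃ γ : Γ, gg F γ z ∈ (base '' (tval '' K) : Set (Cn b)) ∧
      ‖aa F γ z * w + bb F γ z‖ ≤ R := by
    intro z hz w
    obtain ⟨γ, hγ⟩ := hKc (pt hD (io z w) (io_mem hz w))
    have h1 : tval (γ • pt hD (io z w) (io_mem hz w)) = F γ (io z w) := by
      rw [hFdef, FF_of]
    rw [F_form haff hDb hF γ hz w] at h1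
    have h2 : io (gg F γ z) (aa F γ z * w + bb F γ z) ∈ tval '' K := ⟨_, hγ, h1⟩
    refine ⟨γ, ⟨_, h2, base_io _ _⟩, hR _ ⟨_, h2, la_io _ _⟩⟩
  have hone : ∀ z ∈ D, aa F 1 z = 1 ∧ bb F 1 z = 0 := by
    intro z hz
    unfold aa bb
    rw [hF.one _ (io_mem hz 0), hF.one _ (io_mem hz 1), la_io, la_io]
    simp
  exact
    { base :=
        { dom := ⟨hD, hDc, hDb⟩
          act := gAct_gg hD hDb hF
          coc := ⟨_, hKD, hK2, fun z hz => (hcoc z hz 0).imp fun γ h => h.1⟩ }
      a_holo := fun γ => (differentiable_la.comp_differentiableOn (holo_io hF γ 1)).sub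
        (differentiable_la.comp_differentiableOn (holo_io hF γ 0))
      b_holo := fun γ => differentiable_la.comp_differentiableOn (holo_io hF γ 0)
      a_ne := fun γ z hz => (la_affine haff hDb hF γ hz).1
      a_one := fun z hz => (hone z hz).1
      b_one := fun z hz => (hone z hz).2
      a_mul := by
        intro γ γ' z hz
        have h1 := b_mul' haff hDb hF γ γ' hz 1
        have h0 := b_mul' haff hDb hF γ γ' hz 0
        have e : aa F (γ * γ') z = la (F (γ * γ') (io z 1)) - la (F (γ * γ') (io z 0)) := rfl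
        rw [e, h1, h0]
        ring
      b_mul := by
        intro γ γ' z hz
        have h0 := b_mul' haff hDb hF γ γ' hz 0
        have e : bb F (γ * γ') z = la (F (γ * γ') (io z 0)) := rfl
        rw [e, h0]
        ring
      proper := by
        intro K' hK' hK'c R'
        have hS : IsCompact ((fun p : Cn b × ℂ => io p.1 p.2) '' (K' ×ˢ closedBall (0 : ℂ) R')) :=
          (hK'c.prod (isCompact_closedBall 0 R')).image continuous_io
        have hST : (fun p : Cn b × ℂ => io p.1 p.2) '' (K' ×ˢ closedBall (0 : ℂ) R') ⊆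
            tubeS D := by
          rintro _ ⟨⟨z, w⟩, ⟨hz, -⟩, rfl⟩
          exact io_mem (hK' hz) w
        refine (hprop _ (compact_pre hD hS hST)).subset ?_
        rintro γ ⟨z, hz, w, hw, hgz, hw'⟩
        refine ⟨pt hD (io z w) (io_mem (hK' hz) w), ?_, ?_⟩
        · exact ⟨(z, w), ⟨hz, by simpa using hw⟩, rfl⟩
        · refine ⟨(gg F γ z, aa F γ z * w + bb F γ z), ⟨hgz, by simpa using hw'⟩, ?_⟩
          change io _ _ = tval _
          rw [← F_form haff hDb hF γ (hK' hz) w, hFdef, FF_of]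
      coc := ⟨_, hKD, hK2, R, hcoc⟩ }

end Pool.Agent.Helper89.Lin
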